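import Pool.Agent.Y58.HT.Stm4

/-!
HT2-KER: subgroups of `PGL(2,R)` and residue fields.
-/

set_option autoImplicit false
set_option linter.all false

universe u

namespace Pool.Agent.Y528.HT

open Matrix H361P
open Pool.Agent.Y58.HT
open scoped MatrixGroups commutatorElement

lemma central {A : Type*} [CommRing A] (M N : Matrix (Fin 2) (Fin 2) A) (h01 : M 0 1 = 0)
    (h10 : M 1 0 = 0) (hd : M 0 0 = M 1 1) : M * N = N * M := by
  ext i j
  fin_cases i <;> fin_cases j <;>
    simp [Matrix.mul_apply, Fin.sum_univ_two, h01, h10, hd] <;> ring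

lemma mk_nil {R : Type u} [CommRing R] (x : R) (h : ∀ p : PrimeSpectrum R, x ∈ p.asIdeal) :
    x ∈ nilradical R := by
  rw [nilradical_eq_sInf, Submodule.mem_sInf]
  intro J hJ
  exact h ⟨J, hJ⟩

theorem t_ker (hrk : S_RK.{u}) : S_KER.{u} := by
  classical
  intro R _ G _ j hj
  let f : ∀ p : PrimeSpectrum R, G →* PGL(2, p.asIdeal.ResidueField) := fun p =>
    (ProjGenLinGroup.map (algebraMap R p.asIdeal.ResidueField)).comp j
  refine ⟨PrimeSpectrum R, fun p => p.asIdeal.ResidueField, fun p => inferInstance, f, ?_⟩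
  let π : R →+* R ⧸ nilradical R := Ideal.Quotient.mk (nilradical R)
  let Pm : GL (Fin 2) R →* GL (Fin 2) (R ⧸ nilradical R) := GeneralLinearGroup.map π
  -- elements of the common kernel
  have hA : ∀ (m : GL (Fin 2) R), (∀ p : PrimeSpectrum R,
      ProjGenLinGroup.map (algebraMap R p.asIdeal.ResidueField) (ProjGenLinGroup.mk m) = 1) →
      ∀ N : GL (Fin 2) (R ⧸ nilradical R), Pm m * N = N * Pm m := by
    intro m hm N
    have h3 : ∀ p : PrimeSpectrum R, m 0 1 ∈ p.asIdeal ∧ m 1 0 ∈ p.asIdeal ∧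
        m 0 0 - m 1 1 ∈ p.asIdeal := by
      intro p
      have h := hm p
      rw [ProjGenLinGroup.map_mk] at h
      obtain ⟨h1, h2, h3⟩ := entries_of_mk_eq_one _ h
      simp only [GeneralLinearGroup.map_apply] at h1 h2 h3
      refine ⟨Ideal.algebraMap_residueField_eq_zero.1 h1,
        Ideal.algebraMap_residueField_eq_zero.1 h2, Ideal.algebraMap_residueField_eq_zero.1 ?_⟩
      rw [map_sub, h3, sub_self]
    have e1 : Pm m 0 1 = 0 := by
      simp only [Pm, GeneralLinearGroup.map_apply]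
      exact Ideal.Quotient.eq_zero_iff_mem.2 (mk_nil _ fun p => (h3 p).1)
    have e2 : Pm m 1 0 = 0 := by
      simp only [Pm, GeneralLinearGroup.map_apply]
      exact Ideal.Quotient.eq_zero_iff_mem.2 (mk_nil _ fun p => (h3 p).2.1)
    have e3 : Pm m 0 0 = Pm m 1 1 := by
      simp only [Pm, GeneralLinearGroup.map_apply]
      exact Ideal.Quotient.eq.2 (mk_nil _ fun p => (h3 p).2.2)
    apply Units.ext
    rw [Units.val_mul, Units.val_mul]
    exact central _ _ e1 e2 e3
  let N : Subgroup G := ⨅ i, (f i).ker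
  have hN : ∀ g ∈ N, ∀ p, f p g = 1 := by
    intro g hg p
    exact MonoidHom.mem_ker.1 ((Subgroup.mem_iInf.1 hg) p)
  -- elements of the derived subgroup
  have hB : derivedSeries N 1 ≤ (Pm.ker.map ProjGenLinGroup.mk).comap (j.comp N.subtype) := by
    rw [derivedSeries_one, commutator_def, Subgroup.commutator_le]
    rintro ⟨g, hg⟩ _ ⟨h, hh⟩ _
    rw [Subgroup.mem_comap]
    obtain ⟨m, hm⟩ := ProjGenLinGroup.mk_surjective (j g)
    obtain ⟨n, hn⟩ := ProjGenLinGroup.mk_surjective (j h)
    refine Subgroup.mem_map.2 ⟨⁅m, n⁆, ?_, ?_⟩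
    · rw [MonoidHom.mem_ker, map_commutatorElement, commutatorElement_eq_one_iff_mul_comm]
      refine hA m (fun p => ?_) _
      rw [hm]
      exact hN g hg p
    · rw [map_commutatorElement, map_commutatorElement, hm, hn]
      rfl
  intro S hS
  have hC : ∀ s : ↥(derivedSeries N 1), ∃ t : GL (Fin 2) R, t ∈ Pm.ker ∧
      ProjGenLinGroup.mk t = j ((s : ↥N) : G) := by
    intro s
    obtain ⟨t, ht, ht2⟩ := Subgroup.mem_map.1 (hB s.2)
    exact ⟨t, ht, ht2⟩
  choose t ht ht2 using hC
  have hnil : Group.IsNilpotent (Subgroup.closure (t '' S)) := by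
    refine hrk R (t '' S) (hS.image t) ?_
    rintro _ ⟨s, hs, rfl⟩ a b
    have h1 : Pm (t s) = 1 := MonoidHom.mem_ker.1 (ht s)
    have h2 : (Pm (t s) : Matrix (Fin 2) (Fin 2) (R ⧸ nilradical R)) a b =
      (1 : Matrix (Fin 2) (Fin 2) (R ⧸ nilradical R)) a b := by
      rw [h1]; rfl
    have h3 : π ((t s : Matrix (Fin 2) (Fin 2) R) a b) =
        π ((1 : Matrix (Fin 2) (Fin 2) R) a b) := by
      have e : (1 : Matrix (Fin 2) (Fin 2) (R ⧸ nilradical R)) a b =
          π ((1 : Matrix (Fin 2) (Fin 2) R) a b) := by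
        rw [Matrix.one_apply, Matrix.one_apply]
        split_ifs <;> simp
      rw [← e, ← h2]
      rfl
    exact mem_nilradical.1 (Ideal.Quotient.eq.1 h3)
  let Ψ : ↥(derivedSeries N 1) →* PGL(2, R) :=
    (j.comp N.subtype).comp (derivedSeries N 1).subtype
  have hΨ : Function.Injective Ψ := by
    intro a b hab
    exact Subtype.ext (Subtype.ext (hj hab))
  have hmap : (Subgroup.closure S).map Ψ =
      (Subgroup.closure (t '' S)).map ProjGenLinGroup.mk := by
    rw [MonoidHom.map_closure, MonoidHom.map_closure, Set.image_image]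
    congr 1
    refine Set.image_congr fun s _ => ?_
    exact (ht2 s).symm
  haveI := hnil
  have h5 : Group.IsNilpotent ↥((Subgroup.closure (t '' S)).map
      (ProjGenLinGroup.mk : GL (Fin 2) R →* PGL(2, R))) :=
    Group.nilpotent_of_surjective _
      (MonoidHom.subgroupMap_surjective (ProjGenLinGroup.mk : GL (Fin 2) R →* PGL(2, R))
        (Subgroup.closure (t '' S)))
  rw [← hmap] at h5
  haveI := h5
  exact Group.nilpotent_of_mulEquiv
    ((Subgroup.closure S).equivMapOfInjective Ψ hΨ).symm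

end Pool.Agent.Y528.HT
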